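import Pool.Agent.U582.LT.Tor

/-!
# Project LT, P3: elementary summands, and their products
-/

set_option autoImplicit false

open scoped Matrix

set_option linter.unusedSectionVars false

namespace Pool.Agent.U582.LT

variable {κ κ' : Type} [Fintype κ] [DecidableEq κ] [Fintype κ'] [DecidableEq κ']

/-- a family of elementary direct summands (multiplication by `a i` from `ℤ` to `ℤ`) in the degrees `n + 1` and `n`, with
`a i` divisible by `p`: `e i`, `f i` are the generators, `ρ i`, `π i` the projections -/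
structure El (p : ℕ) (A : Matrix κ κ ℤ) (δ : κ → ℕ) (n : ℕ) (I : Type) [DecidableEq I] where
  a : I → ℤ
  e : I → κ → ℤ
  f : I → κ → ℤ
  π : I → κ → ℤ
  ρ : I → κ → ℤ
  a_ne : ∀ i, a i ≠ 0
  p_dvd : ∀ i, (p : ℤ) ∣ a i
  e_deg : ∀ i x, δ x ≠ n + 1 → e i x = 0
  f_deg : ∀ i x, δ x ≠ n → f i x = 0
  π_deg : ∀ i x, δ x ≠ n → π i x = 0
  ρ_deg : ∀ i x, δ x ≠ n + 1 → ρ i x = 0
  eA : ∀ i, e i ᵥ* A = a i • f i
  fA : ∀ i, f i ᵥ* A = 0
  Aπ : ∀ i, A *ᵥ π i = a i • ρ i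
  Aρ : ∀ i, A *ᵥ ρ i = 0
  fπ : ∀ i j, f i ⬝ᵥ π j = if i = j then 1 else 0
  eρ : ∀ i j, e i ⬝ᵥ ρ j = if i = j then 1 else 0

namespace El

variable {p : ℕ} {A : Matrix κ κ ℤ} {δ : κ → ℕ} {n : ℕ} {I : Type} [DecidableEq I]
  (X : El p A δ n I)

theorem eπ (i j : I) : X.e i ⬝ᵥ X.π j = 0 := by
  refine Finset.sum_eq_zero fun x _ => ?_
  by_cases h : δ x = n
  · rw [X.e_deg i x (by omega), zero_mul]
  · rw [X.π_deg j x h, mul_zero]

theorem fρ (i j : I) : X.f i ⬝ᵥ X.ρ j = 0 := by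
  refine Finset.sum_eq_zero fun x _ => ?_
  by_cases h : δ x = n
  · rw [X.ρ_deg j x (by omega), mul_zero]
  · rw [X.f_deg i x h, zero_mul]

/-- the torsion cycles `f i` -/
def fam : Fam p A δ n I where
  c := X.f
  φ := X.π
  deg := X.f_deg
  cyc := X.fA
  tor i := ⟨X.a i, X.e i, X.a_ne i, X.e_deg i, X.eA i⟩
  coc i x := by
    rw [X.Aπ]
    exact (X.p_dvd i).mul_right _
  dual i j := by
    rw [X.fπ, sub_self]
    exact dvd_zero _

theorem sgn_f (i : I) : sgn δ (X.f i) = ((-1) ^ n : ℤ) • X.f i := sgn_deg (X.f_deg i)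

theorem sgn_e (i : I) : sgn δ (X.e i) = ((-1) ^ (n + 1) : ℤ) • X.e i := sgn_deg (X.e_deg i)

end El

theorem smul_ten (a : ℤ) (v : κ → ℤ) (w : κ' → ℤ) : ten (a • v) w = a • ten v w := by
  funext x
  simp [ten, mul_assoc]

theorem ten_smul (a : ℤ) (v : κ → ℤ) (w : κ' → ℤ) : ten v (a • w) = a • ten v w := by
  funext x
  simp only [ten, Pi.smul_apply, smul_eq_mul]
  ring

theorem ten_zero (v : κ → ℤ) : ten v (0 : κ' → ℤ) = 0 := by
  funext x
  simp [ten]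

theorem zero_ten (w : κ' → ℤ) : ten (0 : κ → ℤ) w = 0 := by
  funext x
  simp [ten]

/-- the torsion cycles of the product in the next degree -/
noncomputable def El.tor {p : ℕ} {A : Matrix κ κ ℤ} {δ : κ → ℕ} {n : ℕ} {I : Type} [DecidableEq I]
    (X : El p A δ n I) {B : Matrix κ' κ' ℤ} {δ' : κ' → ℕ} {m : ℕ} {J : Type} [DecidableEq J]
    (Y : El p B δ' m J) : Fam p (K A δ B) (fun x => δ x.1 + δ' x.2) (n + m + 1) (I × J) where
  c s := (Y.a s.2 / Int.gcd (X.a s.1) (Y.a s.2)) • ten (X.e s.1) (Y.f s.2) -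
    ((-1) ^ n * (X.a s.1 / Int.gcd (X.a s.1) (Y.a s.2))) • ten (X.f s.1) (Y.e s.2)
  φ s := (Int.gcdB (X.a s.1) (Y.a s.2)) • ten (X.ρ s.1) (Y.π s.2) -
    ((-1) ^ n * Int.gcdA (X.a s.1) (Y.a s.2)) • ten (X.π s.1) (Y.ρ s.2)
  deg s x h := by
    have h1 : ten (X.e s.1) (Y.f s.2) x = 0 := by
      by_cases h1 : δ x.1 = n + 1
      · have h2 : δ' x.2 ≠ m := fun h2 => h (by rw [h1, h2]; ring)
        simp [ten, Y.f_deg s.2 x.2 h2]
      · simp [ten, X.e_deg s.1 x.1 h1]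
    have h2 : ten (X.f s.1) (Y.e s.2) x = 0 := by
      by_cases h1 : δ x.1 = n
      · have h2 : δ' x.2 ≠ m + 1 := fun h2 => h (by rw [h1, h2]; ring)
        simp [ten, Y.e_deg s.2 x.2 h2]
      · simp [ten, X.f_deg s.1 x.1 h1]
    rw [Pi.sub_apply, Pi.smul_apply, Pi.smul_apply, h1, h2]
    simp
  cyc s := by
    rw [Matrix.sub_vecMul, Matrix.smul_vecMul, Matrix.smul_vecMul, vecMul_K, vecMul_K, X.eA, X.fA,
      Y.eA, Y.fA, ten_zero, zero_ten, X.sgn_f, smul_ten, smul_ten, ten_smul, add_zero, zero_add]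
    simp only [smul_smul]
    rw [← sub_smul]
    have hg1 : (Int.gcd (X.a s.1) (Y.a s.2) : ℤ) ∣ X.a s.1 := Int.gcd_dvd_left ..
    have hg2 : (Int.gcd (X.a s.1) (Y.a s.2) : ℤ) ∣ Y.a s.2 := Int.gcd_dvd_right ..
    have hg0 : (Int.gcd (X.a s.1) (Y.a s.2) : ℤ) ≠ 0 := by
      intro h
      exact X.a_ne s.1 (by rw [h] at hg1; exact zero_dvd_iff.1 hg1)
    have h1 : Y.a s.2 / Int.gcd (X.a s.1) (Y.a s.2) * X.a s.1 =
        X.a s.1 / Int.gcd (X.a s.1) (Y.a s.2) * Y.a s.2 := by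
      obtain ⟨b, hb⟩ := hg1
      obtain ⟨c, hc⟩ := hg2
      have hb' : X.a s.1 / Int.gcd (X.a s.1) (Y.a s.2) = b := Int.ediv_eq_of_eq_mul_right hg0 hb
      have hc' : Y.a s.2 / Int.gcd (X.a s.1) (Y.a s.2) = c := Int.ediv_eq_of_eq_mul_right hg0 hc
      rw [hb', hc']
      calc c * X.a s.1 = c * (Int.gcd (X.a s.1) (Y.a s.2) * b) := by rw [← hb]
        _ = b * (Int.gcd (X.a s.1) (Y.a s.2) * c) := by ring
        _ = b * Y.a s.2 := by rw [← hc]
    have h2 : ((-1) ^ n * (-1) ^ n : ℤ) = 1 := by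
      rw [← mul_pow]; norm_num
    rw [h1]
    have h3 : (-1) ^ n * (X.a s.1 / Int.gcd (X.a s.1) (Y.a s.2)) * ((-1) ^ n * Y.a s.2) =
        X.a s.1 / Int.gcd (X.a s.1) (Y.a s.2) * Y.a s.2 := by
      calc _ = ((-1) ^ n * (-1) ^ n) * (X.a s.1 / Int.gcd (X.a s.1) (Y.a s.2) * Y.a s.2) := by ring
        _ = _ := by rw [h2, one_mul]
    rw [h3, sub_self, zero_smul]
  tor s := by
    refine ⟨Int.gcd (X.a s.1) (Y.a s.2), (-1) ^ (n + 1) • ten (X.e s.1) (Y.e s.2), ?_, fun x hx => ?_, ?_⟩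
    · intro h
      have hg1 : (Int.gcd (X.a s.1) (Y.a s.2) : ℤ) ∣ X.a s.1 := Int.gcd_dvd_left ..
      exact X.a_ne s.1 (by rw [h] at hg1; exact zero_dvd_iff.1 hg1)
    · have h1 : ten (X.e s.1) (Y.e s.2) x = 0 := by
        by_cases h1 : δ x.1 = n + 1
        · have h2 : δ' x.2 ≠ m + 1 := fun h2 => hx (by rw [h1, h2]; ring)
          simp [ten, Y.e_deg s.2 x.2 h2]
        · simp [ten, X.e_deg s.1 x.1 h1]
      rw [Pi.smul_apply, h1]
      simp
    · rw [Matrix.smul_vecMul, vecMul_K, X.eA, Y.eA, X.sgn_e, smul_ten, smul_ten, ten_smul, smul_sub]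
      simp only [smul_add, smul_smul]
      have hg1 : (Int.gcd (X.a s.1) (Y.a s.2) : ℤ) * (X.a s.1 / Int.gcd (X.a s.1) (Y.a s.2)) = X.a s.1 :=
        Int.mul_ediv_cancel' (Int.gcd_dvd_left ..)
      have hg2 : (Int.gcd (X.a s.1) (Y.a s.2) : ℤ) * (Y.a s.2 / Int.gcd (X.a s.1) (Y.a s.2)) = Y.a s.2 :=
        Int.mul_ediv_cancel' (Int.gcd_dvd_right ..)
      have h2 : ((-1) ^ n * (-1) ^ n : ℤ) = 1 := by
        rw [← mul_pow]; norm_num
      have e1 : ((-1) ^ (n + 1) * ((-1) ^ (n + 1) * Y.a s.2) : ℤ) = Y.a s.2 := by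
        calc _ = ((-1) ^ n * (-1) ^ n) * Y.a s.2 := by ring
          _ = _ := by rw [h2, one_mul]
      have e2 : (-1) ^ (n + 1) * X.a s.1 = -((Int.gcd (X.a s.1) (Y.a s.2) : ℤ) *
          ((-1) ^ n * (X.a s.1 / Int.gcd (X.a s.1) (Y.a s.2)))) := by
        calc _ = -((-1) ^ n * X.a s.1) := by ring
          _ = -((-1) ^ n * ((Int.gcd (X.a s.1) (Y.a s.2) : ℤ) *
            (X.a s.1 / Int.gcd (X.a s.1) (Y.a s.2)))) := by rw [hg1]
          _ = _ := by ring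
      rw [hg2, e1, e2, neg_smul, add_comm, sub_eq_add_neg]
  coc s x := by
    rw [Matrix.mulVec_sub, Matrix.mulVec_smul, Matrix.mulVec_smul, mulVec_K, mulVec_K, X.Aπ, X.Aρ,
      Y.Aπ, Y.Aρ, ten_zero, zero_ten, smul_ten, ten_smul, zero_add, add_zero]
    refine dvd_sub ?_ ?_
    · exact ((Y.p_dvd _).mul_right _).mul_left _
    · exact ((X.p_dvd _).mul_right _).mul_left _
  dual s s' := by
    rw [sub_dotProduct, dotProduct_sub, dotProduct_sub]
    simp only [smul_dotProduct, dotProduct_smul, ten_dot, X.eπ, X.fρ, Y.eπ, Y.fρ, X.fπ, X.eρ, Y.fπ,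
      Y.eρ, smul_eq_mul, mul_zero, zero_mul, sub_zero, zero_sub, sub_neg_eq_add]
    by_cases h : s = s'
    · subst h
      simp only [if_true, mul_one]
      have hg1 : (Int.gcd (X.a s.1) (Y.a s.2) : ℤ) ∣ X.a s.1 := Int.gcd_dvd_left ..
      have hg2 : (Int.gcd (X.a s.1) (Y.a s.2) : ℤ) ∣ Y.a s.2 := Int.gcd_dvd_right ..
      have hg0 : (Int.gcd (X.a s.1) (Y.a s.2) : ℤ) ≠ 0 := by
        intro h
        exact X.a_ne s.1 (by rw [h] at hg1; exact zero_dvd_iff.1 hg1)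
      have h1 := Int.gcd_eq_gcd_ab (X.a s.1) (Y.a s.2)
      obtain ⟨b, hb⟩ := hg1
      obtain ⟨c, hc⟩ := hg2
      have hb' : X.a s.1 / Int.gcd (X.a s.1) (Y.a s.2) = b := Int.ediv_eq_of_eq_mul_right hg0 hb
      have hc' : Y.a s.2 / Int.gcd (X.a s.1) (Y.a s.2) = c := Int.ediv_eq_of_eq_mul_right hg0 hc
      have h2 : ((-1) ^ n * (-1) ^ n : ℤ) = 1 := by
        rw [← mul_pow]; norm_num
      rw [hb', hc']
      have h3 : b * Int.gcdA (X.a s.1) (Y.a s.2) + c * Int.gcdB (X.a s.1) (Y.a s.2) = 1 := by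
        apply mul_left_cancel₀ hg0
        calc _ = (Int.gcd (X.a s.1) (Y.a s.2) * b) * Int.gcdA (X.a s.1) (Y.a s.2) +
              (Int.gcd (X.a s.1) (Y.a s.2) * c) * Int.gcdB (X.a s.1) (Y.a s.2) := by ring
          _ = X.a s.1 * Int.gcdA (X.a s.1) (Y.a s.2) + Y.a s.2 * Int.gcdB (X.a s.1) (Y.a s.2) := by
              rw [← hb, ← hc]
          _ = _ := by rw [← h1, mul_one]
      have h4 : c * Int.gcdB (X.a s.1) (Y.a s.2) +
          (-1) ^ n * b * ((-1) ^ n * Int.gcdA (X.a s.1) (Y.a s.2)) - 1 = 0 := by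
        calc _ = c * Int.gcdB (X.a s.1) (Y.a s.2) +
              ((-1) ^ n * (-1) ^ n) * (b * Int.gcdA (X.a s.1) (Y.a s.2)) - 1 := by ring
          _ = b * Int.gcdA (X.a s.1) (Y.a s.2) + c * Int.gcdB (X.a s.1) (Y.a s.2) - 1 := by
              rw [h2]; ring
          _ = 0 := by rw [h3, sub_self]
      have h6 : (X.a s.1).gcdB (Y.a s.2) * c +
          (-1) ^ n * (X.a s.1).gcdA (Y.a s.2) * ((-1) ^ n * b) - 1 = 0 := by
        rw [← h4]
        ring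
      rw [h6]
      exact dvd_zero _
    · rw [if_neg h]
      have h1 : ((if s.1 = s'.1 then (1 : ℤ) else 0) * (if s.2 = s'.2 then 1 else 0)) = 0 := by
        by_cases e1 : s.1 = s'.1
        · have e2 : s.2 ≠ s'.2 := fun e2 => h (Prod.ext e1 e2)
          rw [if_neg e2, mul_zero]
        · rw [if_neg e1, zero_mul]
      rw [h1]
      simp

end Pool.Agent.U582.LT
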