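import Pool.Agent.U582.LT.El

/-!
# Project LT, P3: the elementary summands from the Smith normal form, and ranks over fields
-/

set_option autoImplicit false

open scoped Matrix

set_option linter.unusedSectionVars false

namespace Pool.Agent.U582.LT

open Module

variable {κ : Type} [Fintype κ] [DecidableEq κ]

/-- the boundaries of the `n + 1`-chains -/
def BB (A : Matrix κ κ ℤ) (δ : κ → ℕ) (n : ℕ) : Submodule ℤ (κ → ℤ) where
  carrier := {v | ∃ u : κ → ℤ, (∀ x, δ x ≠ n + 1 → u x = 0) ∧ u ᵥ* A = v}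
  add_mem' := by
    rintro _ _ ⟨v, h1, rfl⟩ ⟨w, h3, rfl⟩
    exact ⟨v + w, fun i hi => by simp [h1 i hi, h3 i hi], Matrix.add_vecMul _ _ _⟩
  zero_mem' := ⟨0, fun i _ => rfl, Matrix.zero_vecMul _⟩
  smul_mem' := by
    rintro c _ ⟨v, h1, rfl⟩
    exact ⟨c • v, fun i hi => by simp [h1 i hi], Matrix.smul_vecMul _ _ _⟩

/-- elementary divisors: `e i A = a i f i`, with dual covectors `π i` of the `f i` -/
structure Sm (A : Matrix κ κ ℤ) (δ : κ → ℕ) (n r : ℕ) where
  a : Fin r → ℤ
  e : Fin r → κ → ℤ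
  f : Fin r → κ → ℤ
  π : Fin r → κ → ℤ
  a_ne : ∀ i, a i ≠ 0
  e_deg : ∀ i x, δ x ≠ n + 1 → e i x = 0
  f_deg : ∀ i x, δ x ≠ n → f i x = 0
  π_deg : ∀ i x, δ x ≠ n → π i x = 0
  eA : ∀ i, e i ᵥ* A = a i • f i
  fπ : ∀ i j, f i ⬝ᵥ π j = if i = j then 1 else 0
  row : ∀ x, δ x = n + 1 → ∃ c : Fin r → ℤ, A x = ∑ i, (c i * a i) • f i

theorem exists_sm (A : Matrix κ κ ℤ) (δ : κ → ℕ) (hA : ∀ x y, A x y ≠ 0 → δ x = δ y + 1) (n : ℕ) :
    ∃ r, Nonempty (Sm A δ n r) := by
  classical
  obtain ⟨r, bM, bN, f, a, snf⟩ := Submodule.smithNormalForm (Pi.basisFun ℤ κ) (BB A δ n)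
  have ha : ∀ i, a i ≠ 0 := by
    intro i h
    have h1 := snf i
    rw [h, zero_smul] at h1
    exact bN.ne_zero i (Subtype.ext h1)
  choose e he1 he2 using fun i => (bN i).2
  have hdeg : ∀ i x, δ x ≠ n → bM (f i) x = 0 := by
    intro i x hx
    have h1 : a i * bM (f i) x = 0 := by
      have h2 := congrFun (snf i) x
      rw [Pi.smul_apply, smul_eq_mul] at h2
      rw [← h2, ← he2 i]
      refine Finset.sum_eq_zero fun y _ => ?_
      change e i y * A y x = 0
      by_cases h3 : A y x = 0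
      · rw [h3, mul_zero]
      · rw [he1 i y, zero_mul]
        intro h4
        have := hA y x h3
        omega
    exact (mul_eq_zero.1 h1).resolve_left (ha i)
  have hdot : ∀ (j : Fin r) (v : κ → ℤ), v ⬝ᵥ (fun y => bM.coord (f j) (Pi.single y 1)) =
      bM.coord (f j) v := by
    intro j v
    have h1 : v = ∑ y, v y • (Pi.single y (1 : ℤ) : κ → ℤ) := by
      funext x
      rw [Finset.sum_apply, Finset.sum_eq_single x]
      · simp
      · intro y _ hy
        simp [Pi.single_apply, hy.symm]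
      · simp
    conv_rhs => rw [h1]
    rw [map_sum]
    refine Finset.sum_congr rfl fun y _ => ?_
    rw [map_smul, smul_eq_mul]
  refine ⟨r, ⟨⟨a, e, fun i => bM (f i),
    fun j y => if δ y = n then bM.coord (f j) (Pi.single y 1) else 0, ha, he1, hdeg,
    fun j y h => if_neg h, fun i => ?_, fun i j => ?_, fun x hx => ?_⟩⟩⟩
  · rw [he2 i, snf i]
  · have h1 : bM (f i) ⬝ᵥ (fun y => if δ y = n then bM.coord (f j) (Pi.single y 1) else 0) =
        bM (f i) ⬝ᵥ (fun y => bM.coord (f j) (Pi.single y 1)) := by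
      refine Finset.sum_congr rfl fun y _ => ?_
      by_cases h : δ y = n
      · simp only [if_pos h]
      · rw [hdeg i y h, zero_mul, zero_mul]
    rw [h1, hdot, Basis.coord_apply, Basis.repr_self, Finsupp.single_apply]
    by_cases h : i = j
    · rw [if_pos h, if_pos (by rw [h])]
    · rw [if_neg h, if_neg fun h1 => h (f.injective h1)]
  · have h1 : A x ∈ BB A δ n := ⟨Pi.single x 1, fun y hy => by
      rw [Pi.single_apply, if_neg]
      rintro rfl
      exact hy hx, by rw [Matrix.single_one_vecMul]; rfl⟩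
    refine ⟨fun i => bN.repr ⟨A x, h1⟩ i, ?_⟩
    have h2 := congrArg Subtype.val (bN.sum_repr ⟨A x, h1⟩)
    rw [AddSubmonoidClass.coe_finsetSum] at h2
    refine h2.symm.trans (Finset.sum_congr rfl fun i _ => ?_)
    rw [Submodule.coe_smul, snf i, smul_smul]

namespace Sm

variable {A : Matrix κ κ ℤ} {δ : κ → ℕ} {n r : ℕ} (X : Sm A δ n r)

theorem dvd_Aπ (hA : ∀ x y, A x y ≠ 0 → δ x = δ y + 1) (j : Fin r) (x : κ) :
    X.a j ∣ (A *ᵥ X.π j) x := by
  by_cases hx : δ x = n + 1
  · obtain ⟨c, hc⟩ := X.row x hx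
    change X.a j ∣ A x ⬝ᵥ X.π j
    rw [hc, sum_dotProduct]
    refine Finset.dvd_sum fun i _ => ?_
    rw [smul_dotProduct, X.fπ, smul_eq_mul]
    by_cases h : i = j
    · rw [h, if_pos rfl, mul_one]
      exact dvd_mul_left _ _
    · rw [if_neg h, mul_zero]
      exact dvd_zero _
  · have h1 : (A *ᵥ X.π j) x = 0 := by
      refine Finset.sum_eq_zero fun y _ => ?_
      change A x y * X.π j y = 0
      by_cases h2 : A x y = 0
      · rw [h2, zero_mul]
      · rw [X.π_deg j y, mul_zero]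
        have := hA x y h2
        omega
    rw [h1]
    exact dvd_zero _

theorem Aπ_deg (hA : ∀ x y, A x y ≠ 0 → δ x = δ y + 1) (j : Fin r) (x : κ) (hx : δ x ≠ n + 1) :
    (A *ᵥ X.π j) x = 0 := by
  refine Finset.sum_eq_zero fun y _ => ?_
  change A x y * X.π j y = 0
  by_cases h2 : A x y = 0
  · rw [h2, zero_mul]
  · rw [X.π_deg j y, mul_zero]
    have := hA x y h2
    omega

/-- the elementary summands with multiplicity divisible by `p` -/
noncomputable def el (hA : ∀ x y, A x y ≠ 0 → δ x = δ y + 1) (hsq : A * A = 0) (p : ℕ) :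
    El p A δ n {i : Fin r // (p : ℤ) ∣ X.a i} where
  a i := X.a i
  e i := X.e i
  f i := X.f i
  π i := X.π i
  ρ i := fun x => (A *ᵥ X.π i) x / X.a i
  a_ne i := X.a_ne i
  p_dvd i := i.2
  e_deg i := X.e_deg i
  f_deg i := X.f_deg i
  π_deg i := X.π_deg i
  ρ_deg i x hx := by rw [X.Aπ_deg hA i x hx, Int.zero_ediv]
  eA i := X.eA i
  fA i := by
    have h1 : X.a i • (X.f i ᵥ* A) = 0 := by
      rw [← Matrix.smul_vecMul, ← X.eA, Matrix.vecMul_vecMul, hsq, Matrix.vecMul_zero]
    exact (smul_eq_zero.1 h1).resolve_left (X.a_ne i)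
  Aπ i := by
    funext x
    rw [Pi.smul_apply, smul_eq_mul, Int.mul_ediv_cancel' (X.dvd_Aπ hA i x)]
  Aρ i := by
    have h0 : X.a i • (fun x => (A *ᵥ X.π i) x / X.a i) = A *ᵥ X.π i := by
      funext x
      rw [Pi.smul_apply, smul_eq_mul, Int.mul_ediv_cancel' (X.dvd_Aπ hA i x)]
    have h1 : X.a i • (A *ᵥ (fun x => (A *ᵥ X.π i) x / X.a i)) = 0 := by
      rw [← Matrix.mulVec_smul, h0, Matrix.mulVec_mulVec, hsq, Matrix.zero_mulVec]
    exact (smul_eq_zero.1 h1).resolve_left (X.a_ne i)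
  fπ i j := by
    rw [X.fπ]
    by_cases h : i = j
    · rw [if_pos h, if_pos (by rw [h])]
    · rw [if_neg h, if_neg fun h1 => h (Subtype.ext h1)]
  eρ i j := by
    have h0 : X.a j • (fun x => (A *ᵥ X.π j) x / X.a j) = A *ᵥ X.π j := by
      funext x
      rw [Pi.smul_apply, smul_eq_mul, Int.mul_ediv_cancel' (X.dvd_Aπ hA j x)]
    have h1 : X.a j * (X.e i ⬝ᵥ (fun x => (A *ᵥ X.π j) x / X.a j)) =
        X.a j * if i = j then 1 else 0 := by
      rw [← smul_eq_mul (X.a j), ← dotProduct_smul, h0, Matrix.dotProduct_mulVec, X.eA,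
        smul_dotProduct, X.fπ, smul_eq_mul]
      by_cases h : i = j
      · rw [h]
        simp
      · rw [if_neg h, if_neg fun h1 => h (Subtype.ext h1), mul_zero, mul_zero]
    exact mul_left_cancel₀ (X.a_ne j) h1

/-- ranks over fields -/
theorem rank_eq (F : Type) [Field F] :
    ((A.map (fun z : ℤ => (z : F))).submatrix (fun x : {x // δ x = n + 1} => x.1) id).rank =
      Nat.card {i : Fin r // (X.a i : F) ≠ 0} := by
  classical
  rw [Matrix.rank_eq_finrank_span_row]
  obtain ⟨v, hv⟩ : ∃ v : {i : Fin r // (X.a i : F) ≠ 0} → κ → F,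
      v = fun i y => ((X.f i.1 y : ℤ) : F) := ⟨_, rfl⟩
  have hsum : ∀ (g : {i : Fin r // (X.a i : F) ≠ 0} → F) (j : {i : Fin r // (X.a i : F) ≠ 0}),
      (∑ i, g i • v i) ⬝ᵥ (fun y => ((X.π j y : ℤ) : F)) = g j := by
    intro g j
    rw [sum_dotProduct, Finset.sum_eq_single j]
    · rw [smul_dotProduct, smul_eq_mul]
      have h1 := X.fπ j j
      rw [if_pos rfl] at h1
      have h2 : v j ⬝ᵥ (fun y => ((X.π j y : ℤ) : F)) = ((X.f j ⬝ᵥ X.π j : ℤ) : F) := by
        rw [hv]
        simp only [dotProduct, Int.cast_sum, Int.cast_mul]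
      rw [h2, h1, Int.cast_one, mul_one]
    · intro i _ hij
      rw [smul_dotProduct, smul_eq_mul]
      have h1 := X.fπ i j
      rw [if_neg fun h => hij (Subtype.ext h)] at h1
      have h2 : v i ⬝ᵥ (fun y => ((X.π j y : ℤ) : F)) = ((X.f i ⬝ᵥ X.π j : ℤ) : F) := by
        rw [hv]
        simp only [dotProduct, Int.cast_sum, Int.cast_mul]
      rw [h2, h1, Int.cast_zero, mul_zero]
    · intro h
      exact absurd (Finset.mem_univ _) h
  have hli : LinearIndependent F v := by
    rw [Fintype.linearIndependent_iff]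
    intro g hg j
    have h1 := hsum g j
    rw [hg, zero_dotProduct] at h1
    exact h1.symm
  have hspan : Submodule.span F (Set.range
      ((A.map (fun z : ℤ => (z : F))).submatrix (fun x : {x // δ x = n + 1} => x.1) id).row) =
      Submodule.span F (Set.range v) := by
    apply le_antisymm
    · rw [Submodule.span_le]
      rintro _ ⟨x, rfl⟩
      obtain ⟨c, hc⟩ := X.row x.1 x.2
      have h1 : ((A.map (fun z : ℤ => (z : F))).submatrix
          (fun x : {x // δ x = n + 1} => x.1) id).row x =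
          ∑ i : {i : Fin r // (X.a i : F) ≠ 0}, ((c i * X.a i : ℤ) : F) • v i := by
        funext y
        change ((A x.1 y : ℤ) : F) = _
        have h4 : ∑ i : {i : Fin r // (X.a i : F) ≠ 0}, ((c i * X.a i : ℤ) : F) * ((X.f i y : ℤ) : F) =
            ∑ i, ((c i * X.a i : ℤ) : F) * ((X.f i y : ℤ) : F) := by
          rw [← Finset.sum_subtype (Finset.univ.filter fun i : Fin r => (X.a i : F) ≠ 0) (by simp)
            (fun i => ((c i * X.a i : ℤ) : F) * ((X.f i y : ℤ) : F)), Finset.sum_filter]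
          refine Finset.sum_congr rfl fun i _ => ?_
          by_cases hi : (X.a i : F) = 0
          · rw [if_neg (not_not.2 hi), Int.cast_mul, hi, mul_zero, zero_mul]
          · rw [if_pos hi]
        rw [Finset.sum_apply]
        simp only [hv, Pi.smul_apply, smul_eq_mul]
        rw [h4, congrFun hc y, Finset.sum_apply, Int.cast_sum]
        exact Finset.sum_congr rfl fun i _ => by rw [Pi.smul_apply, smul_eq_mul, Int.cast_mul]
      rw [SetLike.mem_coe, h1]
      exact Submodule.sum_mem _ fun i _ => Submodule.smul_mem _ _ (Submodule.subset_span ⟨i, rfl⟩)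
    · rw [Submodule.span_le]
      rintro _ ⟨i, rfl⟩
      have h1 : v i = (X.a i : F)⁻¹ • ∑ x : {x // δ x = n + 1}, ((X.e i x : ℤ) : F) •
          ((A.map (fun z : ℤ => (z : F))).submatrix (fun x : {x // δ x = n + 1} => x.1) id).row x := by
        funext y
        rw [Pi.smul_apply, Finset.sum_apply, smul_eq_mul, eq_inv_mul_iff_mul_eq₀ i.2]
        have h2 := congrFun (X.eA i) y
        rw [Pi.smul_apply, smul_eq_mul] at h2
        have h3 : ((X.a i * X.f i y : ℤ) : F) = ∑ x, ((X.e i x : ℤ) : F) * ((A x y : ℤ) : F) := by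
          rw [← h2]
          simp only [Matrix.vecMul, dotProduct, Int.cast_sum, Int.cast_mul]
        rw [hv]
        simp only
        rw [← Int.cast_mul, h3]
        have h4 : ∑ x : {x // δ x = n + 1}, ((X.e i x : ℤ) : F) * ((A x y : ℤ) : F) =
            ∑ x, ((X.e i x : ℤ) : F) * ((A x y : ℤ) : F) := by
          rw [← Finset.sum_subtype (Finset.univ.filter fun x => δ x = n + 1) (by simp)
            (fun x => ((X.e i x : ℤ) : F) * ((A x y : ℤ) : F)), Finset.sum_filter]
          refine Finset.sum_congr rfl fun x _ => ?_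
          split_ifs with hx
          · rfl
          · rw [X.e_deg i x hx, Int.cast_zero, zero_mul]
        rw [← h4]
        rfl
      rw [SetLike.mem_coe, h1]
      exact Submodule.smul_mem _ _ (Submodule.sum_mem _ fun x _ => Submodule.smul_mem _ _
        (Submodule.subset_span ⟨x, rfl⟩))
  rw [hspan, finrank_span_eq_card hli, Nat.card_eq_fintype_card]

end Sm

end Pool.Agent.U582.LT
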