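import Pool.Agent.N496.LT.Defs
import Pool.Agent.U582.LT.Smith

/-!
# Project LT, P3: the integral matrices of the complexes over finite groups
-/

set_option autoImplicit false

open scoped Matrix

set_option linter.unusedSectionVars false

namespace Pool.Agent.U582.LT

open Module Pool.Agent.N496.LT

section coeff

variable {Q : Type} [Group Q] [Fintype Q] [DecidableEq Q]

theorem coeff_mul_fin (a b : MonoidAlgebra ℤ Q) (h : Q) :
    (a * b).coeff h = ∑ g, a.coeff g * b.coeff (g⁻¹ * h) := by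
  rw [MonoidAlgebra.coeff_mul_apply_left, Finsupp.sum_fintype _ _ (fun g => by rw [zero_mul])]

/-- the coefficients of a vector -/
noncomputable def T {ι : Type} : (ι → MonoidAlgebra ℤ Q) ≃ₗ[ℤ] (ι × Q → ℤ) where
  toFun v x := (v x.1).coeff x.2
  invFun w i := MonoidAlgebra.ofCoeff (Finsupp.equivFunOnFinite.symm fun g => w (i, g))
  left_inv v := by
    funext i
    ext g
    rfl
  right_inv w := by
    funext x
    rfl
  map_add' v w := by
    funext x
    rfl
  map_smul' c v := by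
    funext x
    change (c • v x.1).coeff x.2 = c • (v x.1).coeff x.2
    rw [MonoidAlgebra.coeff_smul, Finsupp.smul_apply]

variable (C : GCx Q)

theorem coeff_sum' {α : Type} (s : Finset α) (f : α → MonoidAlgebra ℤ Q) (h : Q) :
    (∑ i ∈ s, f i).coeff h = ∑ i ∈ s, (f i).coeff h := by
  classical
  induction s using Finset.induction_on with
  | empty => simp
  | insert a s ha ih => rw [Finset.sum_insert ha, Finset.sum_insert ha, MonoidAlgebra.coeff_add,
      Finsupp.add_apply, ih]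

theorem T_vecMul (v : C.ι → MonoidAlgebra ℤ Q) : T (v ᵥ* C.D) = T v ᵥ* C.mat ℤ := by
  funext x
  change (∑ i, v i * C.D i x.1).coeff x.2 = ∑ y : C.ι × Q, (v y.1).coeff y.2 * C.mat ℤ y x
  rw [coeff_sum', Fintype.sum_prod_type]
  refine Finset.sum_congr rfl fun i _ => ?_
  rw [coeff_mul_fin]
  refine Finset.sum_congr rfl fun g _ => ?_
  rfl

theorem mat_deg (x y : C.ι × Q) (h : C.mat ℤ x y ≠ 0) : C.deg x.1 = C.deg y.1 + 1 := by
  apply C.D_deg
  intro h0
  apply h
  change (((C.D x.1 y.1).coeff (x.2⁻¹ * y.2) : ℤ) : ℤ) = 0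
  rw [h0]
  simp

theorem mat_sq : C.mat ℤ * C.mat ℤ = 0 := by
  ext x y
  have h1 : ∀ w : C.ι × Q → ℤ, w ᵥ* (C.mat ℤ * C.mat ℤ) = 0 := by
    intro w
    obtain ⟨v, rfl⟩ := (T (Q := Q) (ι := C.ι)).surjective w
    rw [← Matrix.vecMul_vecMul, ← T_vecMul, ← T_vecMul, Matrix.vecMul_vecMul, C.D_sq,
      Matrix.vecMul_zero, map_zero]
  have h2 := congrFun (h1 (Pi.single x 1)) y
  rw [Matrix.single_one_vecMul] at h2
  exact h2

/-- the lower bound for the torsion -/
theorem le_torsOrder {p n : ℕ} {S : Type} [Fintype S] [DecidableEq S]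
    (X : Fam p (C.mat ℤ) (fun x => C.deg x.1) n S) : p ^ Fintype.card S ≤ C.torsOrder n := by
  have hfin : Module.Finite ℤ (C.ι → MonoidAlgebra ℤ Q) :=
    Module.Finite.equiv (T (Q := Q) (ι := C.ι)).symm
  unfold GCx.torsOrder
  refine card_le_torsion (C.cyc n) (C.bdy n) p (fun s => T.symm (X.c s)) (fun s => ⟨fun i hi => ?_, ?_⟩)
    (fun s => ?_) (fun m hm => ?_)
  · ext g
    exact X.deg s (i, g) hi
  · apply (T (Q := Q) (ι := C.ι)).injective
    rw [T_vecMul, LinearEquiv.apply_symm_apply, X.cyc, map_zero]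
  · obtain ⟨m, u, hm, hu, h⟩ := X.tor s
    refine ⟨m, hm, T.symm u, fun i hi => ?_, ?_⟩
    · ext g
      exact hu (i, g) hi
    · apply (T (Q := Q) (ι := C.ι)).injective
      rw [T_vecMul, LinearEquiv.apply_symm_apply, h, map_smul, LinearEquiv.apply_symm_apply]
  · obtain ⟨u, hu, h⟩ := hm
    refine X.ind m (T u) ?_
    rw [← T_vecMul, h, map_sum]
    refine Finset.sum_congr rfl fun s _ => ?_
    rw [map_smul, LinearEquiv.apply_symm_apply]

theorem rk_eq (F : Type) [Field F] {n r : ℕ}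
    (X : Sm (C.mat ℤ) (fun x => C.deg x.1) n r) :
    C.rk F (n + 1) = Nat.card {i : Fin r // (X.a i : F) ≠ 0} := by
  rw [← X.rank_eq F]
  rfl

theorem exists_smC (n : ℕ) : ∃ r, Nonempty (Sm (C.mat ℤ) (fun x => C.deg x.1) n r) :=
  exists_sm _ _ (mat_deg C) n

theorem exists_el (p : ℕ) [Fact p.Prime] (n : ℕ) :
    ∃ (I : Type) (_ : Fintype I) (_ : DecidableEq I),
      Nonempty (El p (C.mat ℤ) (fun x => C.deg x.1) n I) ∧ C.tp p n = Fintype.card I := by
  classical
  obtain ⟨r, ⟨X⟩⟩ := exists_smC C n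
  refine ⟨{i : Fin r // (p : ℤ) ∣ X.a i}, inferInstance, inferInstance,
    ⟨X.el (mat_deg C) (mat_sq C) p⟩, ?_⟩
  unfold GCx.tp
  rw [rk_eq C ℝ X, rk_eq C (ZMod p) X, Nat.card_eq_fintype_card, Nat.card_eq_fintype_card]
  have h1 : Fintype.card {i : Fin r // (X.a i : ℝ) ≠ 0} = r := by
    rw [Fintype.card_subtype, Finset.filter_true_of_mem, Finset.card_univ, Fintype.card_fin]
    intro i _
    exact Int.cast_ne_zero.2 (X.a_ne i)
  have h2 : Fintype.card {i : Fin r // (X.a i : ZMod p) ≠ 0} =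
      Fintype.card {i : Fin r // ¬ (p : ℤ) ∣ X.a i} := by
    refine Fintype.card_congr (Equiv.subtypeEquivRight fun i => ?_)
    rw [Ne, ZMod.intCast_zmod_eq_zero_iff_dvd]
  have h3 := Fintype.card_subtype_compl fun i : Fin r => (p : ℤ) ∣ X.a i
  have h4 : Fintype.card {i : Fin r // (p : ℤ) ∣ X.a i} ≤ Fintype.card (Fin r) :=
    Fintype.card_subtype_le _
  rw [h1, h2, h3, Fintype.card_fin]
  rw [Fintype.card_fin] at h4
  omega

theorem rk_le (p : ℕ) [Fact p.Prime] (n : ℕ) : C.rk (ZMod p) (n + 1) ≤ C.rk ℝ (n + 1) := by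
  classical
  obtain ⟨r, ⟨X⟩⟩ := exists_smC C n
  rw [rk_eq C ℝ X, rk_eq C (ZMod p) X]
  refine Nat.card_le_card_of_injective (fun i => ⟨i.1, fun h => i.2 ?_⟩) fun i j h =>
    Subtype.ext (congrArg (fun z => z.1) h)
  rw [Int.cast_eq_zero] at h
  rw [h, Int.cast_zero]

end coeff

end Pool.Agent.U582.LT
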