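import Pool.Agent.U582.LT.Gcx

/-!
# Project LT, P3: the integral matrix of the product
-/

set_option autoImplicit false

open scoped Matrix

set_option linter.unusedSectionVars false

namespace Pool.Agent.U582.LT

open Module Pool.Agent.N496.LT

section

variable {G H : Type} [Group G] [Group H]

theorem inl_coeff [DecidableEq H] (a : MonoidAlgebra ℤ G) (g : G) (h : H) :
    (MonoidAlgebra.mapDomainRingHom ℤ (MonoidHom.inl G H) a).coeff (g, h) =
      if h = 1 then a.coeff g else 0 := by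
  change (Finsupp.mapDomain (MonoidHom.inl G H) a.coeff) (g, h) = _
  split_ifs with h1
  · subst h1
    exact Finsupp.mapDomain_apply (f := (MonoidHom.inl G H : G → G × H))
      (fun x y hxy => congrArg Prod.fst hxy) a.coeff g
  · rw [Finsupp.mapDomain_of_notMem_range]
    rintro ⟨x, hx⟩
    exact h1 (congrArg Prod.snd hx).symm

theorem inr_coeff [DecidableEq G] (a : MonoidAlgebra ℤ H) (g : G) (h : H) :
    (MonoidAlgebra.mapDomainRingHom ℤ (MonoidHom.inr G H) a).coeff (g, h) =
      if g = 1 then a.coeff h else 0 := by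
  change (Finsupp.mapDomain (MonoidHom.inr G H) a.coeff) (g, h) = _
  split_ifs with h1
  · subst h1
    exact Finsupp.mapDomain_apply (f := (MonoidHom.inr G H : H → G × H))
      (fun x y hxy => congrArg Prod.snd hxy) a.coeff h
  · rw [Finsupp.mapDomain_of_notMem_range]
    rintro ⟨x, hx⟩
    exact h1 (congrArg Prod.fst hx).symm

theorem neg_one_pow_coeff (n : ℕ) (a : MonoidAlgebra ℤ G) (g : G) :
    ((-1) ^ n * a).coeff g = (-1) ^ n * a.coeff g := by
  induction n with
  | zero => simp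
  | succ n ih =>
    rw [pow_succ', mul_assoc, neg_one_mul, MonoidAlgebra.coeff_neg, Finsupp.neg_apply, ih]
    ring

theorem mat_prod [DecidableEq G] [DecidableEq H] (C : GCx G) (E : GCx H)
    (x y : (C.ι × E.ι) × (G × H)) :
    (C.prod E).mat ℤ x y = K (C.mat ℤ) (fun x => C.deg x.1) (E.mat ℤ)
      ((x.1.1, x.2.1), (x.1.2, x.2.2)) ((y.1.1, y.2.1), (y.1.2, y.2.2)) := by
  obtain ⟨⟨i, i'⟩, ⟨g, h⟩⟩ := x
  obtain ⟨⟨j, j'⟩, ⟨g', h'⟩⟩ := y
  have e1 : (C.prod E).mat ℤ ((i, i'), (g, h)) ((j, j'), (g', h')) =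
      ((if i' = j' then MonoidAlgebra.mapDomainRingHom ℤ (MonoidHom.inl G H) (C.D i j) else 0) +
        (if i = j then (-1) ^ C.deg i * MonoidAlgebra.mapDomainRingHom ℤ (MonoidHom.inr G H)
          (E.D i' j') else 0)).coeff (g⁻¹ * g', h⁻¹ * h') := rfl
  have e2 : K (C.mat ℤ) (fun x => C.deg x.1) (E.mat ℤ) ((i, g), (i', h)) ((j, g'), (j', h')) =
      (if (i', h) = (j', h') then (C.D i j).coeff (g⁻¹ * g') else 0) +
        (if (i, g) = (j, g') then (-1) ^ C.deg i * (E.D i' j').coeff (h⁻¹ * h') else 0) := rfl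
  refine e1.trans (Eq.trans ?_ e2.symm)
  rw [MonoidAlgebra.coeff_add, Finsupp.add_apply]
  congr 1
  · by_cases h1 : i' = j'
    · rw [if_pos h1, inl_coeff]
      by_cases h2 : h = h'
      · rw [if_pos (by rw [h2, inv_mul_cancel]), if_pos (by rw [h1, h2])]
      · rw [if_neg, if_neg]
        · exact fun h3 => h2 (congrArg Prod.snd h3)
        · exact fun h3 => h2 (inv_mul_eq_one.1 h3)
    · rw [if_neg h1, if_neg fun h3 => h1 (congrArg Prod.fst h3)]
      rfl
  · by_cases h1 : i = j
    · rw [if_pos h1, neg_one_pow_coeff, inr_coeff]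
      by_cases h2 : g = g'
      · rw [if_pos (by rw [h2, inv_mul_cancel]), if_pos (by rw [h1, h2])]
      · rw [if_neg, if_neg, mul_zero]
        · exact fun h3 => h2 (congrArg Prod.snd h3)
        · exact fun h3 => h2 (inv_mul_eq_one.1 h3)
    · rw [if_neg h1, if_neg fun h3 => h1 (congrArg Prod.fst h3)]
      rfl

/-- quotients of products -/
noncomputable def quoEquiv (N : Subgroup G) [N.Normal] (N' : Subgroup H) [N'.Normal] :
    (G × H) ⧸ (N.prod N') ≃* (G ⧸ N) × (H ⧸ N') :=
  MulEquiv.ofBijective (QuotientGroup.lift (N.prod N')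
    ((QuotientGroup.mk' N).prodMap (QuotientGroup.mk' N')) (by
      rintro ⟨a, b⟩ h
      rw [Subgroup.mem_prod] at h
      exact Prod.ext ((QuotientGroup.eq_one_iff a).2 h.1) ((QuotientGroup.eq_one_iff b).2 h.2)))
    ⟨by
      rw [injective_iff_map_eq_one]
      intro q h
      induction q using QuotientGroup.induction_on with
      | H x =>
        rw [QuotientGroup.lift_mk] at h
        rw [QuotientGroup.eq_one_iff, Subgroup.mem_prod]
        exact ⟨(QuotientGroup.eq_one_iff x.1).1 (congrArg Prod.fst h),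
          (QuotientGroup.eq_one_iff x.2).1 (congrArg Prod.snd h)⟩, by
      rintro ⟨a, b⟩
      induction a using QuotientGroup.induction_on with
      | H a =>
        induction b using QuotientGroup.induction_on with
        | H b => exact ⟨((a, b) : G × H), rfl⟩⟩

theorem quot_prod (C : GCx G) (E : GCx H) (N : Subgroup G) [N.Normal] (N' : Subgroup H)
    [N'.Normal] (x y : C.ι × E.ι) :
    MonoidAlgebra.mapDomainRingHom ℤ (quoEquiv N N').toMonoidHom
      (((C.prod E).quot (N.prod N')).D x y) = ((C.quot N).prod (E.quot N')).D x y := by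
  have e1 : ((C.prod E).quot (N.prod N')).D x y =
      MonoidAlgebra.mapDomainRingHom ℤ (QuotientGroup.mk' (N.prod N'))
      ((if x.2 = y.2 then MonoidAlgebra.mapDomainRingHom ℤ (MonoidHom.inl G H) (C.D x.1 y.1) else 0) +
        (if x.1 = y.1 then (-1) ^ C.deg x.1 * MonoidAlgebra.mapDomainRingHom ℤ (MonoidHom.inr G H)
          (E.D x.2 y.2) else 0)) := rfl
  have e2 : ((C.quot N).prod (E.quot N')).D x y =
      (if x.2 = y.2 then MonoidAlgebra.mapDomainRingHom ℤ (MonoidHom.inl _ _)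
        (MonoidAlgebra.mapDomainRingHom ℤ (QuotientGroup.mk' N) (C.D x.1 y.1)) else 0) +
        (if x.1 = y.1 then (-1) ^ C.deg x.1 * MonoidAlgebra.mapDomainRingHom ℤ (MonoidHom.inr _ _)
          (MonoidAlgebra.mapDomainRingHom ℤ (QuotientGroup.mk' N') (E.D x.2 y.2)) else 0) := rfl
  have c1 : ∀ a : MonoidAlgebra ℤ G, MonoidAlgebra.mapDomainRingHom ℤ (quoEquiv N N').toMonoidHom
      (MonoidAlgebra.mapDomainRingHom ℤ (QuotientGroup.mk' (N.prod N'))
        (MonoidAlgebra.mapDomainRingHom ℤ (MonoidHom.inl G H) a)) =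
      MonoidAlgebra.mapDomainRingHom ℤ (MonoidHom.inl _ _)
        (MonoidAlgebra.mapDomainRingHom ℤ (QuotientGroup.mk' N) a) := by
    intro a
    rw [← RingHom.comp_apply, ← RingHom.comp_apply, ← RingHom.comp_apply,
      ← MonoidAlgebra.mapDomainRingHom_comp, ← MonoidAlgebra.mapDomainRingHom_comp,
      ← MonoidAlgebra.mapDomainRingHom_comp]
    congr 2
  have c2 : ∀ a : MonoidAlgebra ℤ H, MonoidAlgebra.mapDomainRingHom ℤ (quoEquiv N N').toMonoidHom
      (MonoidAlgebra.mapDomainRingHom ℤ (QuotientGroup.mk' (N.prod N'))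
        (MonoidAlgebra.mapDomainRingHom ℤ (MonoidHom.inr G H) a)) =
      MonoidAlgebra.mapDomainRingHom ℤ (MonoidHom.inr _ _)
        (MonoidAlgebra.mapDomainRingHom ℤ (QuotientGroup.mk' N') a) := by
    intro a
    rw [← RingHom.comp_apply, ← RingHom.comp_apply, ← RingHom.comp_apply,
      ← MonoidAlgebra.mapDomainRingHom_comp, ← MonoidAlgebra.mapDomainRingHom_comp,
      ← MonoidAlgebra.mapDomainRingHom_comp]
    congr 2
  rw [e1, e2, map_add, map_add]
  congr 1
  · split_ifs
    · exact c1 _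
    · rw [map_zero, map_zero]
  · split_ifs
    · rw [map_mul, map_mul, c2, map_pow, map_pow, map_neg, map_neg, map_one, map_one]
    · rw [map_zero, map_zero]

theorem quot_prod_coeff (C : GCx G) (E : GCx H) (N : Subgroup G) [N.Normal] (N' : Subgroup H)
    [N'.Normal] (x y : C.ι × E.ι) (q : (G × H) ⧸ (N.prod N')) :
    (((C.prod E).quot (N.prod N')).D x y).coeff q =
      (((C.quot N).prod (E.quot N')).D x y).coeff (quoEquiv N N' q) := by
  rw [← quot_prod]
  exact (Finsupp.mapDomain_apply (f := (quoEquiv N N' : _ → _)) (quoEquiv N N').injective _ q).symm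

/-- the indices -/
noncomputable def idx (C : GCx G) (E : GCx H) (N : Subgroup G) [N.Normal] (N' : Subgroup H)
    [N'.Normal] : (C.ι × E.ι) × ((G × H) ⧸ (N.prod N')) ≃ (C.ι × (G ⧸ N)) × (E.ι × (H ⧸ N')) :=
  ((Equiv.refl _).prodCongr (quoEquiv N N').toEquiv).trans (Equiv.prodProdProdComm _ _ _ _)

theorem mat_quot_prod (C : GCx G) (E : GCx H) (N : Subgroup G) [N.Normal] (N' : Subgroup H)
    [N'.Normal] [DecidableEq (G ⧸ N)] [DecidableEq (H ⧸ N')]
    (x y : (C.ι × E.ι) × ((G × H) ⧸ (N.prod N'))) :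
    ((C.prod E).quot (N.prod N')).mat ℤ x y =
      K ((C.quot N).mat ℤ) (fun x => C.deg x.1) ((E.quot N').mat ℤ) (idx C E N N' x)
        (idx C E N N' y) := by
  have h1 := mat_prod (C.quot N) (E.quot N') (x.1, quoEquiv N N' x.2) (y.1, quoEquiv N N' y.2)
  refine Eq.trans ?_ h1
  change (((C.prod E).quot (N.prod N')).D x.1 y.1).coeff (x.2⁻¹ * y.2) =
    (((C.quot N).prod (E.quot N')).D x.1 y.1).coeff ((quoEquiv N N' x.2)⁻¹ * quoEquiv N N' y.2)
  rw [quot_prod_coeff, map_mul, map_inv]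

end

end Pool.Agent.U582.LT
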