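import Pool.Agent.N496.LT.Stm
import Pool.Agent.U582.LT.Prod

/-!
# Project LT, P3: torsion of squares and of triple products
-/

set_option autoImplicit false

open scoped Matrix

set_option linter.unusedSectionVars false

namespace Pool.Agent.U582.LT

open Module Pool.Agent.N496.LT

section

variable {G H : Type} [Group G] [Group H]

theorem famQ (C : GCx G) (E : GCx H) (N : Subgroup G) [N.Normal] (N' : Subgroup H)
    [N'.Normal] [Fintype (G ⧸ N)] [Fintype (H ⧸ N')] [Fintype ((G × H) ⧸ (N.prod N'))]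
    [DecidableEq (G ⧸ N)] [DecidableEq (H ⧸ N')] [DecidableEq ((G × H) ⧸ (N.prod N'))]
    {p n : ℕ} {S : Type} [DecidableEq S]
    (X : Fam p (K ((C.quot N).mat ℤ) (fun x => C.deg x.1) ((E.quot N').mat ℤ))
      (fun x => C.deg x.1.1 + E.deg x.2.1) n S) :
    Nonempty (Fam p (((C.prod E).quot (N.prod N')).mat ℤ)
      (fun x => ((C.prod E).quot (N.prod N')).deg x.1) n S) :=
  ⟨X.reindex (idx C E N N') (mat_quot_prod C E N N') fun _ => rfl⟩

end

open Classical in
theorem p3s : P3S := by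
  intro G _ C N _ _ p _ d
  obtain ⟨I, _, _, ⟨X⟩, hI⟩ := exists_el (C.quot N) p d
  haveI : Fintype ((G × G) ⧸ (N.prod N)) := Fintype.ofEquiv _ (quoEquiv N N).symm.toEquiv
  have hp : 1 ≤ p := (Fact.out : p.Prime).one_lt.le
  rw [hI, sq, ← Fintype.card_prod]
  constructor
  · obtain ⟨Y⟩ := famQ C C N N (X.fam.prod X.fam)
    rw [two_mul]
    exact le_torsOrder _ Y
  · obtain ⟨Y⟩ := famQ C C N N (X.tor X)
    rw [two_mul]
    exact le_torsOrder _ Y

open Classical in
theorem p3t : P3T := by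
  intro G _ C N _ _ p _ d
  obtain ⟨I, _, _, ⟨X⟩, hI⟩ := exists_el (C.quot N) p d
  haveI : Fintype ((G × G) ⧸ (N.prod N)) := Fintype.ofEquiv _ (quoEquiv N N).symm.toEquiv
  haveI : Fintype ((G × (G × G)) ⧸ (N.prod (N.prod N))) :=
    Fintype.ofEquiv _ (quoEquiv N (N.prod N)).symm.toEquiv
  obtain ⟨Y⟩ := famQ C C N N (X.tor X)
  obtain ⟨Z⟩ := famQ C (C.prod C) N (N.prod N) (X.fam.prod Y)
  have h1 := le_torsOrder _ Z
  have h2 : Fintype.card (I × (I × I)) = (C.quot N).tp p d ^ 3 := by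
    rw [Fintype.card_prod, Fintype.card_prod, hI]
    ring
  rw [h2, show d + (d + d + 1) = 3 * d + 1 by ring] at h1
  exact h1

section

variable {Q : Type} [Group Q] [Fintype Q] (C : GCx Q)

theorem rk_zero (F : Type) [Field F] : C.rk F 0 = 0 := by
  unfold GCx.rk
  have h1 : (C.mat F).submatrix (fun x : {x : C.ι × Q // C.deg x.1 = 0} => x.1) id = 0 := by
    ext x y
    change (((C.D x.1.1 y.1).coeff (x.1.2⁻¹ * y.2) : ℤ) : F) = 0
    by_cases h : C.D x.1.1 y.1 = 0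
    · rw [h]
      simp
    · have h2 := C.D_deg _ _ h
      have h3 := x.2
      omega
  rw [h1, Matrix.rank_zero]

open Classical in
theorem rk_le' (p : ℕ) [Fact p.Prime] (n : ℕ) : C.rk (ZMod p) n ≤ C.rk ℝ n := by
  cases n with
  | zero => rw [rk_zero, rk_zero]
  | succ n => exact rk_le C p n

open Classical in
theorem rk_add (n : ℕ) : C.rk ℝ n + C.rk ℝ (n + 1) ≤
    Fintype.card {i : C.ι // C.deg i = n} * Fintype.card Q := by
  have hsq : C.mat ℝ * C.mat ℝ = 0 := by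
    have h1 := congrArg (fun M : Matrix (C.ι × Q) (C.ι × Q) ℤ => M.map (Int.castRingHom ℝ)) (mat_sq C)
    simp only [Matrix.map_mul] at h1
    have h2 : (C.mat ℤ).map (Int.castRingHom ℝ) = C.mat ℝ := rfl
    rw [h2] at h1
    rw [h1]
    ext x y
    simp
  have hdeg : ∀ x y, C.deg x.1 ≠ C.deg y.1 + 1 → C.mat ℝ x y = 0 := by
    intro x y h
    change (((C.D x.1 y.1).coeff (x.2⁻¹ * y.2) : ℤ) : ℝ) = 0
    by_cases h1 : C.D x.1 y.1 = 0
    · rw [h1]
      simp
    · exact absurd (C.D_deg _ _ h1) h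
  obtain ⟨P, hP⟩ : ∃ P : Matrix {x : C.ι × Q // C.deg x.1 = n + 1} {x : C.ι × Q // C.deg x.1 = n} ℝ,
    P = (C.mat ℝ).submatrix (fun x => x.1) (fun x => x.1) := ⟨_, rfl⟩
  obtain ⟨R, hR⟩ : ∃ R : Matrix {x : C.ι × Q // C.deg x.1 = n} (C.ι × Q) ℝ,
    R = (C.mat ℝ).submatrix (fun x => x.1) id := ⟨_, rfl⟩
  have hsum : ∀ f : C.ι × Q → ℝ, (∀ z, C.deg z.1 ≠ n → f z = 0) →
      ∑ z : {z : C.ι × Q // C.deg z.1 = n}, f z = ∑ z, f z := by
    intro f hf
    rw [← Finset.sum_subtype (Finset.univ.filter fun z : C.ι × Q => C.deg z.1 = n) (by simp) f,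
      Finset.sum_filter]
    refine Finset.sum_congr rfl fun z _ => ?_
    split_ifs with h
    · rfl
    · exact (hf z h).symm
  have h0 : P * R = 0 := by
    ext x y
    rw [Matrix.mul_apply, Matrix.zero_apply, hP, hR]
    have h1 := congrFun (congrFun hsq x.1) y
    rw [Matrix.mul_apply, Matrix.zero_apply] at h1
    rw [← h1]
    refine hsum (fun z => C.mat ℝ x.1 z * C.mat ℝ z y) fun z hz => ?_
    rw [hdeg, zero_mul]
    rw [x.2]
    omega
  have h1 := Matrix.rank_add_rank_le_card_of_mul_eq_zero h0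
  have h2 : C.rk ℝ (n + 1) ≤ P.rank := by
    have h3 : (C.mat ℝ).submatrix (fun x : {x : C.ι × Q // C.deg x.1 = n + 1} => x.1) id =
        P * (1 : Matrix (C.ι × Q) (C.ι × Q) ℝ).submatrix
          (fun x : {x : C.ι × Q // C.deg x.1 = n} => x.1) id := by
      ext x y
      rw [Matrix.mul_apply, hP]
      have h4 := hsum (fun z => C.mat ℝ x.1 z * (1 : Matrix (C.ι × Q) (C.ι × Q) ℝ) z y) fun z hz => by
        rw [hdeg, zero_mul]
        rw [x.2]
        omega
      refine Eq.trans ?_ h4.symm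
      rw [← Matrix.mul_apply, mul_one]
      rfl
    unfold GCx.rk
    rw [h3]
    exact Matrix.rank_mul_le_left _ _
  have h3 : R.rank = C.rk ℝ n := by
    rw [hR]
    rfl
  have h4 : Fintype.card {x : C.ι × Q // C.deg x.1 = n} =
      Fintype.card {i : C.ι // C.deg i = n} * Fintype.card Q := by
    rw [← Fintype.card_prod]
    refine Fintype.card_congr ⟨fun x => (⟨x.1.1, x.2⟩, x.1.2), fun x => ⟨(x.1.1, x.2), x.1.2⟩,
      fun x => rfl, fun x => rfl⟩
  omega

end

theorem p3a : P3A := by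
  intro Q _ _ C p _ n
  have h1 := rk_le' C p (n + 1)
  have h2 := rk_le' C p (n + 3)
  have h3 := rk_add C n
  have h4 := rk_add C (n + 2)
  refine ⟨rk_le' C p n, ?_, ?_⟩
  · unfold GCx.betti
    have h5 : ((C.rk ℝ n + C.rk ℝ (n + 1) : ℕ) : ℤ) ≤
      ((Fintype.card {i : C.ι // C.deg i = n} * Fintype.card Q : ℕ) : ℤ) := by exact_mod_cast h3
    push_cast at h5
    linarith
  · unfold GCx.betti GCx.tp
    have h5 : ((C.rk ℝ (n + 2) + C.rk ℝ (n + 2 + 1) : ℕ) : ℤ) ≤
      ((Fintype.card {i : C.ι // C.deg i = n + 2} * Fintype.card Q : ℕ) : ℤ) := by exact_mod_cast h4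
    push_cast at h5
    rw [Nat.cast_sub h1]
    have h6 : (C.rk (ZMod p) (n + 3) : ℤ) ≤ C.rk ℝ (n + 3) := by exact_mod_cast h2
    have e1 : n + 2 + 1 = n + 3 := rfl
    have e2 : n + 1 + 1 = n + 2 := rfl
    rw [e1] at h5 ⊢
    rw [e2]
    linarith

end Pool.Agent.U582.LT
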