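import Pool.Agent.Helper993.DeltaDef

/-!
# Project LT, P3: lower bounds for torsion, families of torsion cycles with dual cocycles modulo `p`
-/

set_option autoImplicit false

open scoped Matrix

set_option linter.unusedSectionVars false

namespace Pool.Agent.U582.LT

open Pool.Agent.Helper993.Delta

/-- a lower bound for the order of the torsion subgroup of `Z / B` -/
theorem card_le_torsion {M : Type} [AddCommGroup M] [Module.Finite ℤ M] (Z B : Submodule ℤ M)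
    {S : Type} [Fintype S] (p : ℕ) (c : S → M) (hZ : ∀ s, c s ∈ Z)
    (htor : ∀ s, ∃ m : ℤ, m ≠ 0 ∧ m • c s ∈ B)
    (hind : ∀ n : S → ℤ, ∑ s, n s • c s ∈ B → ∀ s, (p : ℤ) ∣ n s) :
    p ^ Fintype.card S ≤ torsionCard Z B := by
  classical
  unfold torsionCard
  have hfin : Finite (Submodule.torsion ℤ (Z ⧸ B.submoduleOf Z)) :=
    Module.finite_of_fg_torsion _ (Submodule.torsion_isTorsion)
  choose m hm0 hm using htor
  have hmem : ∀ n : S → Fin p, ∑ s, ((n s : ℕ) : ℤ) • c s ∈ Z := fun n =>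
    Submodule.sum_mem _ fun s _ => Submodule.smul_mem _ _ (hZ s)
  let f : (S → Fin p) → Submodule.torsion ℤ (Z ⧸ B.submoduleOf Z) := fun n =>
    ⟨Submodule.Quotient.mk ⟨∑ s, ((n s : ℕ) : ℤ) • c s, hmem n⟩, by
      rw [Submodule.mem_torsion_iff]
      refine ⟨⟨∏ s, m s, mem_nonZeroDivisors_of_ne_zero (Finset.prod_ne_zero_iff.2 fun s _ => hm0 s)⟩,
        ?_⟩
      change (∏ s, m s) • (Submodule.Quotient.mk _ : Z ⧸ B.submoduleOf Z) = 0
      rw [← Submodule.Quotient.mk_smul, Submodule.Quotient.mk_eq_zero]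
      change (∏ s, m s) • ∑ s, ((n s : ℕ) : ℤ) • c s ∈ B
      rw [Finset.smul_sum]
      refine Submodule.sum_mem _ fun s hs => ?_
      obtain ⟨t, ht⟩ := Finset.dvd_prod_of_mem m hs
      rw [ht, smul_smul, mul_comm (m s) t, mul_assoc, mul_comm (m s), ← mul_assoc, ← smul_smul]
      exact Submodule.smul_mem _ _ (hm s)⟩
  have hf : Function.Injective f := by
    intro n n' h
    have h1 := congrArg Subtype.val h
    change (Submodule.Quotient.mk _ : Z ⧸ B.submoduleOf Z) = Submodule.Quotient.mk _ at h1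
    rw [Submodule.Quotient.eq] at h1
    change ∑ s, ((n s : ℕ) : ℤ) • c s - ∑ s, ((n' s : ℕ) : ℤ) • c s ∈ B at h1
    rw [← Finset.sum_sub_distrib] at h1
    have h2 := hind (fun s => ((n s : ℕ) : ℤ) - ((n' s : ℕ) : ℤ)) (by
      convert h1 using 1
      exact Finset.sum_congr rfl fun s _ => sub_smul _ _ _)
    funext s
    have h3 := h2 s
    have h4 := (n s).isLt
    have h5 := (n' s).isLt
    have h6 : ((n s : ℕ) : ℤ) - ((n' s : ℕ) : ℤ) = 0 := by
      refine Int.eq_zero_of_abs_lt_dvd h3 ?_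
      rw [abs_lt]
      constructor <;> omega
    exact Fin.ext (by omega)
  have h7 := Nat.card_le_card_of_injective f hf
  rwa [Nat.card_pi, Finset.prod_const, Nat.card_eq_fintype_card, Fintype.card_fin,
    Finset.card_univ] at h7

/-! ### Graded integral matrices -/

section

variable {κ κ' : Type} [Fintype κ] [DecidableEq κ] [Fintype κ'] [DecidableEq κ']

/-- `n`-cycles which are torsion modulo boundaries, and dual cocycles modulo `p` -/
structure Fam (p : ℕ) (A : Matrix κ κ ℤ) (δ : κ → ℕ) (n : ℕ) (S : Type) [DecidableEq S] where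
  c : S → κ → ℤ
  φ : S → κ → ℤ
  deg : ∀ s x, δ x ≠ n → c s x = 0
  cyc : ∀ s, c s ᵥ* A = 0
  tor : ∀ s, ∃ (m : ℤ) (u : κ → ℤ), m ≠ 0 ∧ (∀ x, δ x ≠ n + 1 → u x = 0) ∧ u ᵥ* A = m • c s
  coc : ∀ s x, (p : ℤ) ∣ (A *ᵥ φ s) x
  dual : ∀ s s', (p : ℤ) ∣ c s ⬝ᵥ φ s' - if s = s' then 1 else 0

theorem Fam.ind {p : ℕ} {A : Matrix κ κ ℤ} {δ : κ → ℕ} {n : ℕ} {S : Type} [DecidableEq S]
    [Fintype S] (X : Fam p A δ n S) (m : S → ℤ) (u : κ → ℤ) (h : u ᵥ* A = ∑ s, m s • X.c s) (s : S) :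
    (p : ℤ) ∣ m s := by
  have h1 : (u ᵥ* A) ⬝ᵥ X.φ s = u ⬝ᵥ (A *ᵥ X.φ s) := (Matrix.dotProduct_mulVec _ _ _).symm
  have h2 : (p : ℤ) ∣ u ⬝ᵥ (A *ᵥ X.φ s) := Finset.dvd_sum fun x _ => (X.coc s x).mul_left _
  rw [← h1, h, sum_dotProduct] at h2
  have h3 : (p : ℤ) ∣ ∑ t, (m t • X.c t) ⬝ᵥ X.φ s - ∑ t, m t * if t = s then 1 else 0 := by
    rw [← Finset.sum_sub_distrib]
    refine Finset.dvd_sum fun t _ => ?_
    rw [smul_dotProduct, smul_eq_mul, ← mul_sub]
    exact (X.dual t s).mul_left _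
  have h4 : ∑ t, m t * (if t = s then (1 : ℤ) else 0) = m s := by simp
  rw [h4] at h3
  have h5 := dvd_sub h2 h3
  rwa [sub_sub_cancel] at h5

/-- change of the indices -/
def Fam.reindex {p : ℕ} {A : Matrix κ κ ℤ} {δ : κ → ℕ} {n : ℕ} {S : Type} [DecidableEq S]
    (X : Fam p A δ n S) (e : κ' ≃ κ) {A' : Matrix κ' κ' ℤ} {δ' : κ' → ℕ}
    (hA : ∀ x y, A' x y = A (e x) (e y)) (hδ : ∀ x, δ' x = δ (e x)) : Fam p A' δ' n S where
  c s x := X.c s (e x)
  φ s x := X.φ s (e x)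
  deg s x h := X.deg s (e x) (by rwa [← hδ])
  cyc s := by
    funext y
    have h := congrFun (X.cyc s) (e y)
    simp only [Matrix.vecMul, dotProduct, Pi.zero_apply] at h ⊢
    rw [← h, ← e.sum_comp]
    exact Finset.sum_congr rfl fun x _ => by rw [hA]
  tor s := by
    obtain ⟨m, u, hm, hu, h⟩ := X.tor s
    refine ⟨m, fun x => u (e x), hm, fun x hx => hu _ (by rwa [← hδ]), ?_⟩
    funext y
    have h := congrFun h (e y)
    simp only [Matrix.vecMul, dotProduct, Pi.smul_apply] at h ⊢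
    rw [← h, ← e.sum_comp]
    exact Finset.sum_congr rfl fun x _ => by rw [hA]
  coc s x := by
    have h := X.coc s (e x)
    simp only [Matrix.mulVec, dotProduct] at h ⊢
    rw [← e.sum_comp] at h
    convert h using 1
    exact Finset.sum_congr rfl fun y _ => by rw [hA]
  dual s s' := by
    have h := X.dual s s'
    simp only [dotProduct] at h ⊢
    rw [← e.sum_comp] at h
    exact h

/-- the matrix of the boundary of the product of two complexes -/
def K (A : Matrix κ κ ℤ) (δ : κ → ℕ) (B : Matrix κ' κ' ℤ) : Matrix (κ × κ') (κ × κ') ℤ :=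
  Matrix.of fun x y => (if x.2 = y.2 then A x.1 y.1 else 0) +
    (if x.1 = y.1 then (-1) ^ δ x.1 * B x.2 y.2 else 0)

/-- the tensor product of two vectors -/
def ten (v : κ → ℤ) (w : κ' → ℤ) : κ × κ' → ℤ := fun x => v x.1 * w x.2

/-- the signs -/
def sgn (δ : κ → ℕ) (v : κ → ℤ) : κ → ℤ := fun x => (-1) ^ δ x * v x

theorem vecMul_K (A : Matrix κ κ ℤ) (δ : κ → ℕ) (B : Matrix κ' κ' ℤ) (v : κ → ℤ) (w : κ' → ℤ) :
    ten v w ᵥ* K A δ B = ten (v ᵥ* A) w + ten (sgn δ v) (w ᵥ* B) := by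
  funext y
  simp only [Matrix.vecMul, dotProduct, ten, K, sgn, Pi.add_apply, Matrix.of_apply, mul_add,
    Finset.sum_add_distrib]
  congr 1
  · rw [Fintype.sum_prod_type, Finset.sum_mul]
    refine Finset.sum_congr rfl fun x _ => ?_
    simp only [mul_ite, mul_zero, Finset.sum_ite_eq', Finset.mem_univ, if_true]
    ring
  · rw [Fintype.sum_prod_type, Finset.sum_comm, Finset.mul_sum]
    refine Finset.sum_congr rfl fun x _ => ?_
    simp only [mul_ite, mul_zero, Finset.sum_ite_eq', Finset.mem_univ, if_true]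
    ring

theorem mulVec_K (A : Matrix κ κ ℤ) (δ : κ → ℕ) (B : Matrix κ' κ' ℤ) (v : κ → ℤ) (w : κ' → ℤ) :
    K A δ B *ᵥ ten v w = ten (A *ᵥ v) w + ten (sgn δ v) (B *ᵥ w) := by
  funext y
  simp only [Matrix.mulVec, dotProduct, ten, K, sgn, Pi.add_apply, Matrix.of_apply, add_mul,
    Finset.sum_add_distrib]
  congr 1
  · rw [Fintype.sum_prod_type, Finset.sum_mul]
    refine Finset.sum_congr rfl fun x _ => ?_
    simp only [ite_mul, zero_mul, Finset.sum_ite_eq, Finset.mem_univ, if_true]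
    ring
  · rw [Fintype.sum_prod_type, Finset.sum_comm, Finset.mul_sum]
    refine Finset.sum_congr rfl fun x _ => ?_
    simp only [ite_mul, zero_mul, Finset.sum_ite_eq, Finset.mem_univ, if_true]
    ring

theorem ten_dot (v v' : κ → ℤ) (w w' : κ' → ℤ) : ten v w ⬝ᵥ ten v' w' = (v ⬝ᵥ v') * (w ⬝ᵥ w') := by
  simp only [dotProduct, ten]
  rw [Fintype.sum_prod_type, Finset.sum_mul_sum]
  exact Finset.sum_congr rfl fun x _ => Finset.sum_congr rfl fun y _ => by ring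

theorem sgn_deg {δ : κ → ℕ} {v : κ → ℤ} {n : ℕ} (h : ∀ x, δ x ≠ n → v x = 0) :
    sgn δ v = ((-1) ^ n : ℤ) • v := by
  funext x
  by_cases hx : δ x = n
  · simp [sgn, hx]
  · simp [sgn, h x hx]

/-- products of families -/
def Fam.prod {p : ℕ} {A : Matrix κ κ ℤ} {δ : κ → ℕ} {n : ℕ} {S : Type} [DecidableEq S]
    (X : Fam p A δ n S) {B : Matrix κ' κ' ℤ} {δ' : κ' → ℕ} {m : ℕ} {S' : Type} [DecidableEq S']
    (Y : Fam p B δ' m S') : Fam p (K A δ B) (fun x => δ x.1 + δ' x.2) (n + m) (S × S') where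
  c s := ten (X.c s.1) (Y.c s.2)
  φ s := ten (X.φ s.1) (Y.φ s.2)
  deg s x h := by
    by_cases h1 : δ x.1 = n
    · have h2 : δ' x.2 ≠ m := fun h2 => h (by rw [h1, h2])
      simp [ten, Y.deg s.2 x.2 h2]
    · simp [ten, X.deg s.1 x.1 h1]
  cyc s := by
    rw [vecMul_K, X.cyc, Y.cyc]
    funext x
    simp [ten]
  tor s := by
    obtain ⟨N, u, hN, hu, h⟩ := X.tor s.1
    refine ⟨N, ten u (Y.c s.2), hN, fun x hx => ?_, ?_⟩
    · by_cases h1 : δ x.1 = n + 1
      · have h2 : δ' x.2 ≠ m := fun h2 => hx (by rw [h1, h2]; ring)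
        simp [ten, Y.deg s.2 x.2 h2]
      · simp [ten, hu x.1 h1]
    · rw [vecMul_K, h, Y.cyc]
      funext x
      simp [ten, mul_assoc]
  coc s x := by
    rw [mulVec_K]
    change (p : ℤ) ∣ (A *ᵥ X.φ s.1) x.1 * Y.φ s.2 x.2 + sgn δ (X.φ s.1) x.1 * (B *ᵥ Y.φ s.2) x.2
    exact dvd_add ((X.coc _ _).mul_right _) ((Y.coc _ _).mul_left _)
  dual s s' := by
    rw [ten_dot]
    obtain ⟨a, ha⟩ := X.dual s.1 s'.1
    obtain ⟨b, hb⟩ := Y.dual s.2 s'.2
    have h1 : X.c s.1 ⬝ᵥ X.φ s'.1 = (if s.1 = s'.1 then 1 else 0) + p * a := by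
      rw [← ha]; ring
    have h2 : Y.c s.2 ⬝ᵥ Y.φ s'.2 = (if s.2 = s'.2 then 1 else 0) + p * b := by
      rw [← hb]; ring
    have h3 : (if s = s' then (1 : ℤ) else 0) =
        (if s.1 = s'.1 then 1 else 0) * (if s.2 = s'.2 then 1 else 0) := by
      by_cases e1 : s.1 = s'.1
      · by_cases e2 : s.2 = s'.2
        · rw [if_pos (Prod.ext e1 e2), if_pos e1, if_pos e2, mul_one]
        · rw [if_neg (fun h => e2 (congrArg Prod.snd h)), if_neg e2, mul_zero]
      · rw [if_neg (fun h => e1 (congrArg Prod.fst h)), if_neg e1, zero_mul]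
    rw [h1, h2, h3]
    refine ⟨(if s.1 = s'.1 then 1 else 0) * b + a * (if s.2 = s'.2 then 1 else 0) + p * a * b, ?_⟩
    ring

end

end Pool.Agent.U582.LT
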